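import Mathlib
import Pool.Agent.Lib.MP_0a1b52_lc_EX.Exact
import Pool.Agent.Lib.MP_0a1b52_lc_RT.DefsL
import Pool.Agent.Lib.MP_0a1b52_lc_RT.Dual

/-!
# Reading once, both sides: the exact exponent
-/

set_option autoImplicit false

namespace Pool.Agent.SF

open Finset Pool.Agent.FP Pool.Agent.RT

open Classical in
/-- reading the edges of a star forest once costs the factor `2 ^ m / m ^ 12`; the circuits may use
free functions of the other variables -/
theorem partExact : ∃ m₀ : ℕ, ∀ m ≥ m₀, ∀ n ≥ m ^ 7, ∀ u z : Fin m → Fin n,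
    Function.Injective u → (∀ i j, z i ≠ u j) → ∀ e : Fin m → EdgeVar n,
    (∀ i, (e i).1 = (z i, u i) ∨ (e i).1 = (u i, z i)) →
      (∃ (N : ℕ) (Q : Fin N → EdgeVar n → Bool), 0 < N ∧ (∀ i, ¬ Clq (Q i)) ∧
        ∀ (t : ℕ) (g : Fin t → (EdgeVar n → Bool) → Bool),
          (∀ w x y, (∀ f, (∀ i, f ≠ e i) → x f = y f) → g w x = g w y) →
        ∀ (s : ℕ) (D : Circuit (EdgeVar n ⊕ Fin t) s),
          (∀ x, Clq x → D.Accepts (Sum.elim x fun w => g w x)) →
          (∀ i L, LTree D D.out L → (L.map Prod.fst).count (Sum.inl (e i)) ≤ 1) →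
          ((univ.filter fun i => ¬ D.Accepts (Sum.elim (Q i) fun w => g w (Q i))).card : ℝ) ≤
            N * (s * m ^ 12 / 2 ^ m)) ∧
      ∃ (N : ℕ) (P : Fin N → EdgeVar n → Bool), 0 < N ∧ (∀ i, Clq (P i)) ∧
        ∀ (t : ℕ) (g : Fin t → (EdgeVar n → Bool) → Bool),
          (∀ w x y, (∀ f, (∀ i, f ≠ e i) → x f = y f) → g w x = g w y) →
        ∀ (s : ℕ) (D : Circuit (EdgeVar n ⊕ Fin t) s),
          (∀ x, ¬ Clq x → ¬ D.Accepts (Sum.elim x fun w => g w x)) →
          (∀ i L, ATree D D.out L → L.count (Sum.inl (e i)) ≤ 1) →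
          ((univ.filter fun i => D.Accepts (Sum.elim (P i) fun w => g w (P i))).card : ℝ) ≤
            N * (s * m ^ 12 / 2 ^ m) := by
  obtain ⟨m₀, h⟩ := Pool.Agent.EX.exactU
  refine ⟨m₀, fun m hm n hn u z hu hz e he => ⟨?_, ?_⟩⟩
  · obtain ⟨N, Q, hN, hQ, h1⟩ := h m hm n hn u z hu hz e he false
    refine ⟨N, Q, hN, fun i hi => by simpa using (hQ i).1 hi, fun t g hg s D hD hcnt => ?_⟩
    refine h1 t g hg s D (fun x hx => ?_) fun i M hM => ?_
    · constructor
      · intro h1
        exact (hx (hD x h1)).elim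
      · intro h1
        exact Bool.noConfusion h1
    · obtain ⟨L, hL, rfl⟩ := (tree_iff D D.out M).1 hM
      exact hcnt i L hL
  · obtain ⟨N, Q, hN, hQ, h1⟩ := h m hm n hn u z hu hz e he true
    refine ⟨N, Q, hN, fun i => (hQ i).2 rfl, fun t g hg s D hD hcnt => ?_⟩
    have h3 := h1 t g hg s (dual D) (fun x hx => by
        rw [dual_accepts, not_not] at hx
        refine ⟨fun _ => rfl, fun _ => ?_⟩
        by_contra hc
        exact hD x hc hx) (fun i L hL => hcnt i L (tree_dual hL))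
    have h4 : (univ.filter fun i => ¬ (dual D).Accepts (Sum.elim (Q i) fun w => g w (Q i))) =
        univ.filter fun i => D.Accepts (Sum.elim (Q i) fun w => g w (Q i)) := by
      ext i
      rw [mem_filter, mem_filter, dual_accepts, not_not]
    rw [h4] at h3
    exact h3

end Pool.Agent.SF
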