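import Mathlib
import Pool.Agent.Lib.MP_0a1b52_lc_FP.Defs

/-!
# Small sets of variables, module Sub: the clique problem on fewer vertices as a restriction
-/

set_option autoImplicit false

namespace Pool.Agent.SF

open Finset Pool.Agent.FP

/-- the variable of the smaller problem as a variable of the larger one -/
def emb {k n : ℕ} (g : Fin k ↪o Fin n) (e : EdgeVar k) : EdgeVar n :=
  ⟨(g e.1.1, g e.1.2), g.lt_iff_lt.2 e.2⟩

theorem emb_inj {k n : ℕ} (g : Fin k ↪o Fin n) : Function.Injective (emb g) := by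
  intro e e' h
  have h1 := congrArg Subtype.val h
  have h2 : g e.1.1 = g e'.1.1 := congrArg Prod.fst h1
  have h3 : g e.1.2 = g e'.1.2 := congrArg Prod.snd h1
  exact Subtype.ext (Prod.ext (g.injective h2) (g.injective h3))

open Classical in
/-- the restriction: the vertices in `R` are joined to everything, the graph given by `y` is put on
the vertices `g a` -/
noncomputable def ext {k n : ℕ} (g : Fin k ↪o Fin n) (R : Finset (Fin n)) (y : EdgeVar k → Bool) :
    EdgeVar n → Bool :=
  fun f => decide (f.1.1 ∈ R ∨ f.1.2 ∈ R ∨ ∃ e, emb g e = f ∧ y e = true)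

variable {k n : ℕ}

theorem ext_dep (g : Fin k ↪o Fin n) (R : Finset (Fin n)) (y y' : EdgeVar k → Bool)
    (f : EdgeVar n) (h : ext g R y f ≠ ext g R y' f) : ∃ e, emb g e = f ∧ y e ≠ y' e := by
  by_contra hc
  have hc2 : ∀ e, emb g e = f → y e = y' e := by
    intro e he
    by_contra h1
    exact hc ⟨e, he, h1⟩
  apply h
  have h1 : (∃ e, emb g e = f ∧ y e = true) ↔ ∃ e, emb g e = f ∧ y' e = true := by
    constructor
    · rintro ⟨e, he, h1⟩
      exact ⟨e, he, (hc2 e he).symm.trans h1⟩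
    · rintro ⟨e, he, h1⟩
      exact ⟨e, he, (hc2 e he).trans h1⟩
  simp only [ext, h1]

private theorem adj (g : Fin k ↪o Fin n) (R : Finset (Fin n)) (y : EdgeVar k → Bool)
    (u v : Fin n) (h : u ≠ v) : (graphOf (ext g R y)).Adj u v ↔
      (u ∈ R ∨ v ∈ R ∨ ∃ a b, u = g a ∧ v = g b ∧ (graphOf y).Adj a b) := by
  constructor
  · rintro ⟨f, h1, h2⟩
    have h3 : f.1.1 ∈ R ∨ f.1.2 ∈ R ∨ ∃ e, emb g e = f ∧ y e = true := by
      simpa only [ext, decide_eq_true_eq] using h1
    rcases h2 with h2 | h2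
    · rw [h2] at h3
      rcases h3 with h3 | h3 | ⟨e, h3, h4⟩
      · exact Or.inl h3
      · exact Or.inr (Or.inl h3)
      · have h5 : f.1 = (g e.1.1, g e.1.2) := by rw [← h3]; rfl
        rw [h2] at h5
        exact Or.inr (Or.inr ⟨e.1.1, e.1.2, congrArg Prod.fst h5, congrArg Prod.snd h5,
          e, h4, Or.inl rfl⟩)
    · rw [h2] at h3
      rcases h3 with h3 | h3 | ⟨e, h3, h4⟩
      · exact Or.inr (Or.inl h3)
      · exact Or.inl h3
      · have h5 : f.1 = (g e.1.1, g e.1.2) := by rw [← h3]; rfl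
        rw [h2] at h5
        exact Or.inr (Or.inr ⟨e.1.2, e.1.1, congrArg Prod.snd h5, congrArg Prod.fst h5,
          e, h4, Or.inr rfl⟩)
  · intro h1
    have key : ∀ f : EdgeVar n, (f.1 = (u, v) ∨ f.1 = (v, u)) → ext g R y f = true := by
      intro f hf
      simp only [ext, decide_eq_true_eq]
      rcases h1 with h1 | h1 | ⟨a, b, h2, h3, e, h4, h5⟩
      · rcases hf with hf | hf <;> rw [hf]
        · exact Or.inl h1
        · exact Or.inr (Or.inl h1)
      · rcases hf with hf | hf <;> rw [hf]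
        · exact Or.inr (Or.inl h1)
        · exact Or.inl h1
      · refine Or.inr (Or.inr ⟨e, ?_, h4⟩)
        apply Subtype.ext
        have h6 := f.2
        have h7 := (emb g e).2
        have h8 : (emb g e).1 = (g e.1.1, g e.1.2) := rfl
        rcases h5 with h5 | h5 <;> rcases hf with hf | hf <;> rw [h5] at h8 <;>
          rw [h8] at h7 <;> rw [hf] at h6
        · rw [h8, hf, h2, h3]
        · rw [h2, h3] at h6
          exact (lt_asymm h6 h7).elim
        · rw [h2, h3] at h6
          exact (lt_asymm h6 h7).elim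
        · rw [h8, hf, h2, h3]
    rcases lt_or_gt_of_ne h with h2 | h2
    · exact ⟨⟨(u, v), h2⟩, key _ (Or.inl rfl), Or.inl rfl⟩
    · exact ⟨⟨(v, u), h2⟩, key _ (Or.inr rfl), Or.inr rfl⟩

theorem clq_ext (g : Fin k ↪o Fin n) (R : Finset (Fin n)) (hk : 1 ≤ k)
    (hR : ∀ a, g a ∉ R) (hc : R.card + Nat.sqrt k = Nat.sqrt n) (y : EdgeVar k → Bool) :
    Clq (ext g R y) ↔ Clq y := by
  classical
  have hk1 : 1 ≤ Nat.sqrt k := Nat.le_sqrt.2 (by simpa using hk)
  constructor
  · rintro ⟨K, hK, hcard⟩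
    have h1 : Nat.sqrt n + 1 ≤ K.card := by
      have h2 : ((Nat.sqrt n : ℕ) : ℝ) < K.card :=
        lt_of_le_of_lt (Real.nat_sqrt_le_real_sqrt) hcard
      exact_mod_cast h2
    have h2 : Nat.sqrt k + 1 ≤ (K \ R).card := by
      have h3 := le_card_sdiff R K
      omega
    have hadj : ∀ u ∈ K \ R, ∀ v ∈ K \ R, u ≠ v →
        ∃ a b, u = g a ∧ v = g b ∧ (graphOf y).Adj a b := by
      intro u hu v hv hne
      obtain ⟨hu1, hu2⟩ := mem_sdiff.1 hu
      obtain ⟨hv1, hv2⟩ := mem_sdiff.1 hv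
      rcases (adj g R y u v hne).1 (hK (by exact_mod_cast hu1) (by exact_mod_cast hv1) hne) with
        h | h | h
      · exact absurd h hu2
      · exact absurd h hv2
      · exact h
    let L : Finset (Fin k) := univ.filter fun a => g a ∈ K \ R
    have h3 : K \ R ⊆ L.image g := by
      intro u hu
      obtain ⟨v, hv, hvu⟩ := exists_mem_ne (show 1 < (K \ R).card by omega) u
      obtain ⟨a, b, h4, -, -⟩ := hadj u hu v hv hvu.symm
      exact mem_image.2 ⟨a, mem_filter.2 ⟨mem_univ _, h4 ▸ hu⟩, h4.symm⟩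
    refine ⟨L, ?_, ?_⟩
    · intro a ha b hb hne
      have ha1 : a ∈ L := by exact_mod_cast ha
      have hb1 : b ∈ L := by exact_mod_cast hb
      have ha' : g a ∈ K \ R := (mem_filter.1 ha1).2
      have hb' : g b ∈ K \ R := (mem_filter.1 hb1).2
      obtain ⟨a', b', h4, h5, h6⟩ := hadj _ ha' _ hb' fun h => hne (g.injective h)
      rw [g.injective h4, g.injective h5]
      exact h6
    · have h4 : Nat.sqrt k + 1 ≤ L.card := h2.trans ((card_le_card h3).trans card_image_le)
      have h5 : Real.sqrt k < ((Nat.sqrt k + 1 : ℕ) : ℝ) := by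
        push_cast
        exact Real.real_sqrt_lt_nat_sqrt_succ
      exact lt_of_lt_of_le h5 (by exact_mod_cast h4)
  · rintro ⟨K, hK, hcard⟩
    have h1 : Nat.sqrt k + 1 ≤ K.card := by
      have h2 : ((Nat.sqrt k : ℕ) : ℝ) < K.card :=
        lt_of_le_of_lt (Real.nat_sqrt_le_real_sqrt) hcard
      exact_mod_cast h2
    refine ⟨R ∪ K.image g, ?_, ?_⟩
    · intro u hu v hv hne
      rw [adj g R y u v hne]
      simp only [coe_union, Set.mem_union, mem_coe, mem_image] at hu hv
      rcases hu with hu | ⟨a, ha, rfl⟩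
      · exact Or.inl hu
      · rcases hv with hv | ⟨b, hb, rfl⟩
        · exact Or.inr (Or.inl hv)
        · refine Or.inr (Or.inr ⟨a, b, rfl, rfl, hK (by exact_mod_cast ha)
            (by exact_mod_cast hb) ?_⟩)
          rintro rfl
          exact hne rfl
    · have hdisj : Disjoint R (K.image g) := by
        rw [disjoint_left]
        intro u hu hu'
        obtain ⟨a, -, rfl⟩ := mem_image.1 hu'
        exact hR a hu
      rw [card_union_of_disjoint hdisj, card_image_of_injective _ g.injective]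
      have h5 : Real.sqrt n < ((Nat.sqrt n + 1 : ℕ) : ℝ) := by
        push_cast
        exact Real.real_sqrt_lt_nat_sqrt_succ
      have h6 : Nat.sqrt n + 1 ≤ R.card + K.card := by omega
      exact lt_of_lt_of_le h5 (by exact_mod_cast h6)

/-- a set of variables is the image of a set of variables of the clique problem on twice as many
vertices -/
theorem exists_sub (m : ℕ) (hm : 1 ≤ m) (hn : 4 * m ≤ n) (E : Finset (EdgeVar n))
    (hE : E.card = m) :
    ∃ (g : Fin (2 * m) ↪o Fin n) (R : Finset (Fin n)) (E' : Finset (EdgeVar (2 * m))),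
      (∀ a, g a ∉ R) ∧ R.card + Nat.sqrt (2 * m) = Nat.sqrt n ∧ E'.card = m ∧
        ∀ e ∈ E', emb g e ∈ E := by
  classical
  let D : Finset (Fin n) := E.image (fun f => f.1.1) ∪ E.image fun f => f.1.2
  have hD : D.card ≤ 2 * m := by
    have h1 := card_union_le (E.image fun f => f.1.1) (E.image fun f => f.1.2)
    have h2 := card_image_le (s := E) (f := fun f => f.1.1)
    have h3 := card_image_le (s := E) (f := fun f => f.1.2)
    have h4 : D.card ≤ _ := h1
    omega
  obtain ⟨W, hDW, -, hW⟩ := exists_subsuperset_card_eq (subset_univ D) hD (by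
    rw [card_univ, Fintype.card_fin]
    omega)
  have hsq : Nat.sqrt (2 * m) ≤ Nat.sqrt n := Nat.sqrt_le_sqrt (by omega)
  have hsn : Nat.sqrt n - Nat.sqrt (2 * m) ≤ n - 2 * m := by
    have h1 : 2 * Nat.sqrt n ≤ n + 1 := by
      have h2 := Nat.sqrt_le n
      nlinarith [Nat.sqrt_le n, sq_nonneg ((Nat.sqrt n : ℤ) - 1)]
    have h3 : 1 ≤ Nat.sqrt (2 * m) := Nat.le_sqrt.2 (by omega)
    omega
  obtain ⟨R, hR, hRc⟩ := exists_subset_card_eq (s := Wᶜ)
    (n := Nat.sqrt n - Nat.sqrt (2 * m)) (by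
      rw [card_compl, Fintype.card_fin, hW]
      exact hsn)
  let g : Fin (2 * m) ↪o Fin n := W.orderEmbOfFin hW
  have hg : ∀ a, g a ∈ W := fun a => orderEmbOfFin_mem W hW a
  have hgs : ∀ w ∈ W, ∃ a, g a = w := by
    intro w hw
    have h1 : w ∈ Set.range g := by
      rw [range_orderEmbOfFin]
      exact_mod_cast hw
    exact h1
  refine ⟨g, R, univ.filter fun e => emb g e ∈ E, ?_, ?_, ?_, ?_⟩
  · intro a ha
    exact mem_compl.1 (hR ha) (hg a)
  · rw [hRc]
    omega
  · refine Eq.trans ?_ hE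
    refine card_bij (fun e _ => emb g e) (fun e he => (mem_filter.1 he).2)
      (fun e _ e' _ h => emb_inj g h) ?_
    intro f hf
    obtain ⟨a, ha⟩ := hgs f.1.1 (hDW (mem_union_left _ (mem_image.2 ⟨f, hf, rfl⟩)))
    obtain ⟨b, hb⟩ := hgs f.1.2 (hDW (mem_union_right _ (mem_image.2 ⟨f, hf, rfl⟩)))
    have hab : a < b := by
      have h1 := f.2
      rw [← ha, ← hb] at h1
      exact g.lt_iff_lt.1 h1
    have h2 : emb g ⟨(a, b), hab⟩ = f := Subtype.ext (Prod.ext ha hb)
    refine ⟨⟨(a, b), hab⟩, mem_filter.2 ⟨mem_univ _, ?_⟩, h2⟩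
    rw [h2]
    exact hf
  · intro e he
    exact (mem_filter.1 he).2

end Pool.Agent.SF
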