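import Mathlib
import Pool.Agent.Lib.MP_0a1b52_lc_RS.Main
import Pool.Agent.Lib.MP_0a1b52_lc_RT.MainG
import Pool.Agent.Lib.MP_0a1b52_lc_SF.Sub

/-!
# Small sets of variables, module One: reading more than `c log m` times
-/

set_option autoImplicit false

namespace Pool.Agent.SF

open Finset Pool.Agent.FP Pool.Agent.RK Pool.Agent.RT

open Classical in
/-- sets with at most `n / 4` elements -/
private theorem oneA (ε : ℝ) (hε : 0 < ε) (hε1 : ε < 1) : ∃ c : ℝ, 0 < c ∧ ∃ m₀ : ℕ, ∀ m ≥ m₀,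
    ∀ (n : ℕ) (E : Finset (EdgeVar n)), m ≤ E.card → 4 * m ≤ n →
      ∃ (N : ℕ) (Q : Fin N → EdgeVar n → Bool), 0 < N ∧ (∀ i, ¬ Clq (Q i)) ∧
        ∀ (s : ℕ) (D : Circuit (EdgeVar n) s), (∀ x, Clq x → D.Accepts x) →
          (s : ℝ) ≤ (2 : ℝ) ^ ((m : ℝ) ^ (1 - ε)) →
          (∀ e ∈ E, ∀ L, Tree D D.out L → (L.count e : ℝ) ≤ c * Real.logb 2 m) →
          ((univ.filter fun i => ¬ D.Accepts (Q i)).card : ℝ) ≤
            N * (2 : ℝ) ^ (-((m : ℝ) ^ (1 - ε))) := by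
  obtain ⟨δ, hδ, n₁, h1⟩ := Pool.Agent.RS.rel2 (1 - ε) (ε / 2) (by linarith) (by positivity)
  obtain ⟨c, hc, n₂, h2⟩ := mainG (1 - ε) (ε / 2 / 2) δ (by linarith) (by positivity) hδ
  obtain ⟨n₃, h3⟩ := Filter.eventually_atTop.1
    (((tendsto_rpow_atTop (by positivity : 0 < ε / 2 / 2)).comp
      (tendsto_natCast_atTop_atTop (R := ℝ))).eventually_ge_atTop 2000)
  refine ⟨c, hc, max n₁ (max n₂ (max n₃ 1)), fun m hm n E hE hmn => ?_⟩
  have hm1 : n₁ ≤ m := le_trans (le_max_left _ _) hm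
  have hm' := le_trans (le_max_right _ _) hm
  have hm2 : n₂ ≤ m := le_trans (le_max_left _ _) hm'
  have hm'' := le_trans (le_max_right _ _) hm'
  have hm3 : n₃ ≤ m := le_trans (le_max_left _ _) hm''
  have hm4 : 1 ≤ m := le_trans (le_max_right _ _) hm''
  have hmR : (1 : ℝ) ≤ m := by exact_mod_cast hm4
  have hm0 : (0 : ℝ) < m := by linarith
  have hk0 : (0 : ℝ) < ((2 * m : ℕ) : ℝ) := by
    push_cast
    linarith
  have hk1 : (1 : ℝ) ≤ ((2 * m : ℕ) : ℝ) := by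
    push_cast
    linarith
  have hmk : (m : ℝ) ≤ ((2 * m : ℕ) : ℝ) := by
    push_cast
    linarith
  obtain ⟨E₀, hE0, hE0c⟩ := exists_subset_card_eq hE
  obtain ⟨g, R, E', hgR, hRc, hE'c, hE'⟩ := exists_sub m hm4 hmn E₀ hE0c
  have hq : (2000 : ℝ) ≤ ((2 * m : ℕ) : ℝ) ^ (ε / 2 / 2) := h3 (2 * m) (by omega)
  have hq2 : ((2 * m : ℕ) : ℝ) ^ (1 - ε + ε / 2) * ((2 * m : ℕ) : ℝ) ^ (ε / 2) =
      ((2 * m : ℕ) : ℝ) := by
    rw [← Real.rpow_add hk0]
    convert Real.rpow_one _ using 2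
    ring
  have hq3 : ((2 * m : ℕ) : ℝ) ^ (ε / 2 / 2) ≤ ((2 * m : ℕ) : ℝ) ^ (ε / 2) :=
    Real.rpow_le_rpow_of_exponent_le hk1 (by linarith)
  have hq4 : (0 : ℝ) < ((2 * m : ℕ) : ℝ) ^ (1 - ε + ε / 2) := by positivity
  obtain ⟨E₁, E₂, hE1, hE2, hd, hcard, hE3, N, Q, hN, hQ, hT⟩ := h1 (2 * m) (by omega) E' (by
    rw [hE'c]
    have h5 : ((2 * m : ℕ) : ℝ) = 2 * m := by push_cast; ring
    nlinarith)
  have hinj : Set.InjOn (emb g) (E₁ : Set (EdgeVar (2 * m))) := fun _ _ _ _ h => emb_inj g h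
  refine ⟨N, fun i => ext g R (Q i), hN, fun i => ?_, fun s D hD hs hcnt => ?_⟩
  · rw [clq_ext g R (by omega) hgR hRc]
    exact hQ i
  have hmain := h2 (2 * m) (by omega) (EdgeVar n) (E₁.image (emb g)) (E₂.image (emb g)) (by
      rw [disjoint_left]
      intro f hf hf'
      obtain ⟨e, he, rfl⟩ := mem_image.1 hf
      obtain ⟨e', he', h4⟩ := mem_image.1 hf'
      rw [emb_inj g h4] at he'
      exact disjoint_left.1 hd he he') (by
      rw [card_image_of_injective _ (emb_inj g), card_image_of_injective _ (emb_inj g)]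
      exact hcard) (by
      rw [card_image_of_injective _ (emb_inj g)]
      rw [hE'c] at hE3
      have h6 : ((2 * m : ℕ) : ℝ) ^ (ε / 2 / 2) * ((2 * m : ℕ) : ℝ) ^ (ε / 2 / 2) ≤
          ((2 * m : ℕ) : ℝ) := by
        rw [← Real.rpow_add hk0]
        calc ((2 * m : ℕ) : ℝ) ^ (ε / 2 / 2 + ε / 2 / 2) ≤ ((2 * m : ℕ) : ℝ) ^ (1 : ℝ) :=
              Real.rpow_le_rpow_of_exponent_le hk1 (by linarith)
          _ = _ := Real.rpow_one _
      have h5 : ((2 * m : ℕ) : ℝ) = 2 * m := by push_cast; ring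
      nlinarith) N (fun i => ext g R (Q i)) (fun x => ¬ Clq x) (by
      intro X hX T hTs hTc
      refine hT (fun t => univ.filter fun e => emb g e ∈ X t) ?_ (fun y => T (ext g R y)) ?_ ?_
      · have hcc : ∀ (F : Finset (EdgeVar (2 * m))) (t : Fin 2),
            (F.image (emb g) ∩ X t).card =
              (F ∩ univ.filter fun e => emb g e ∈ X t).card := by
          intro F t
          rw [← card_image_of_injective (F ∩ univ.filter fun e => emb g e ∈ X t) (emb_inj g)]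
          congr 1
          ext f
          simp only [mem_inter, mem_image, mem_filter, mem_univ, true_and]
          constructor
          · rintro ⟨⟨e, he, rfl⟩, h4⟩
            exact ⟨e, ⟨he, h4⟩, rfl⟩
          · rintro ⟨e, ⟨he, h4⟩, rfl⟩
            exact ⟨⟨e, he, rfl⟩, h4⟩
        have h4 := hX
        rw [card_image_of_injective _ (emb_inj g)] at h4
        refine h4.trans (le_of_eq ?_)
        have h5 := hcc E₁ 0
        have h6 := hcc E₂ 1
        congr 1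
        · exact_mod_cast h5
        · exact_mod_cast h6
      · intro u v huv hv
        refine hTs (ext g R u) (fun t => ext g R (v t)) ?_ hv
        intro t f hf
        by_contra h4
        obtain ⟨e, he, h5⟩ := ext_dep g R _ _ f h4
        exact h5 (huv t e fun h6 => hf (he ▸ (mem_filter.1 h6).2))
      · intro y hy hc
        exact hTc _ hy ((clq_ext g R (by omega) hgR hRc y).2 hc)) s D
    (fun x hx hc => hx (hD x hc)) (hs.trans (by
      refine Real.rpow_le_rpow_of_exponent_le (by norm_num) ?_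
      exact Real.rpow_le_rpow hm0.le hmk (by linarith))) (by
      intro f hf L hL
      have hfE : f ∈ E := by
        rcases mem_union.1 hf with h4 | h4
        · obtain ⟨e, he, rfl⟩ := mem_image.1 h4
          exact hE0 (hE' e (hE1 he))
        · obtain ⟨e, he, rfl⟩ := mem_image.1 h4
          exact hE0 (hE' e (hE2 he))
      refine le_trans (le_of_eq ?_) ((hcnt f hfE L hL).trans ?_)
      · rw [lawful_beq_subsingleton (instBEqOfDecidableEq : BEq (EdgeVar n)) Subtype.instBEq]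
      · refine mul_le_mul_of_nonneg_left ?_ hc.le
        exact Real.logb_le_logb_of_le (by norm_num) hm0 hmk)
  refine hmain.trans (mul_le_mul_of_nonneg_left ?_ (Nat.cast_nonneg _))
  refine Real.rpow_le_rpow_of_exponent_le (by norm_num) (neg_le_neg ?_)
  exact Real.rpow_le_rpow hm0.le hmk (by linarith)

open Classical in
/-- sets with more than `n / 4` elements -/
private theorem oneB (ε : ℝ) (hε : 0 < ε) (hε1 : ε < 1) : ∃ c : ℝ, 0 < c ∧ ∃ m₀ : ℕ, ∀ m ≥ m₀,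
    ∀ (n : ℕ) (E : Finset (EdgeVar n)), m ≤ E.card → n < 4 * m →
      ∃ (N : ℕ) (Q : Fin N → EdgeVar n → Bool), 0 < N ∧ (∀ i, ¬ Clq (Q i)) ∧
        ∀ (s : ℕ) (D : Circuit (EdgeVar n) s), (∀ x, Clq x → D.Accepts x) →
          (s : ℝ) ≤ (2 : ℝ) ^ ((m : ℝ) ^ (1 - ε)) →
          (∀ e ∈ E, ∀ L, Tree D D.out L → (L.count e : ℝ) ≤ c * Real.logb 2 m) →
          ((univ.filter fun i => ¬ D.Accepts (Q i)).card : ℝ) ≤
            N * (2 : ℝ) ^ (-((m : ℝ) ^ (1 - ε))) := by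
  choose c hc n₀ h using fun j : ℕ => Pool.Agent.RS.mainS ((j : ℝ) * (ε / 4)) (ε / 4)
    (by positivity) (by positivity)
  obtain ⟨J, hJ⟩ : ∃ J, J = ⌈8 / ε⌉₊ := ⟨_, rfl⟩
  obtain ⟨j₁, -, hj₁⟩ := exists_min_image (range (J + 1)) c ⟨0, mem_range.2 (Nat.succ_pos _)⟩
  refine ⟨c j₁ / 2, by have := hc j₁; positivity, max 256 (((range (J + 1)).sup n₀) ^ 2),
    fun m hm n E hE hnm => ?_⟩
  have hm256 : 256 ≤ m := le_trans (le_max_left _ _) hm
  have hmsq : ((range (J + 1)).sup n₀) ^ 2 ≤ m := le_trans (le_max_right _ _) hm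
  have hEn : E.card ≤ n ^ 2 := by
    have h1 := card_le_univ E
    have h2 : Fintype.card (EdgeVar n) ≤ Fintype.card (Fin n × Fin n) :=
      Fintype.card_subtype_le _
    rw [Fintype.card_prod, Fintype.card_fin] at h2
    calc E.card ≤ n * n := h1.trans h2
      _ = n ^ 2 := (sq n).symm
  have hmn2 : m ≤ n ^ 2 := hE.trans hEn
  have hn16 : 16 ≤ n := by
    by_contra hcon
    have : n ^ 2 ≤ 15 ^ 2 := Nat.pow_le_pow_left (by omega) 2
    omega
  have hnmax : (range (J + 1)).sup n₀ ≤ n :=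
    (Nat.pow_le_pow_iff_left (by norm_num)).1 (hmsq.trans hmn2)
  have hnR : (16 : ℝ) ≤ n := by exact_mod_cast hn16
  have hn0 : (0 : ℝ) < n := by linarith
  have hn1 : (1 : ℝ) < n := by linarith
  have hmR : (256 : ℝ) ≤ m := by exact_mod_cast hm256
  have hm0 : (0 : ℝ) < m := by linarith
  obtain ⟨l, hl⟩ : ∃ l, l = Real.logb n m := ⟨_, rfl⟩
  have hnl : (n : ℝ) ^ l = m := by
    rw [hl]
    exact Real.rpow_logb hn0 hn1.ne' hm0
  have hl2 : l ≤ 2 := by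
    rw [hl, ← Real.logb_rpow (b := (n : ℝ)) (x := 2) hn0 hn1.ne']
    refine Real.logb_le_logb_of_le hn1 hm0 ?_
    have : (m : ℝ) ≤ (n : ℝ) ^ (2 : ℕ) := by exact_mod_cast hmn2
    rwa [← Real.rpow_natCast] at this
  have hl1 : 1 / 2 ≤ l := by
    rw [hl, ← Real.logb_rpow (b := (n : ℝ)) (x := 1 / 2) hn0 hn1.ne']
    refine Real.logb_le_logb_of_le hn1 (by positivity) ?_
    have h1 : (n : ℝ) ^ (1 / 2 : ℝ) * (n : ℝ) ^ (1 / 2 : ℝ) = n := by
      rw [← Real.rpow_add hn0]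
      norm_num
    have h2 : (4 : ℝ) ≤ (n : ℝ) ^ (1 / 2 : ℝ) := by
      rw [← Real.sqrt_eq_rpow]
      exact Real.le_sqrt_of_sq_le (by linarith)
    have h3 : (n : ℝ) ≤ 4 * m := by
      have : n ≤ 4 * m := hnm.le
      exact_mod_cast this
    nlinarith
  obtain ⟨j, hj⟩ : ∃ j, j = ⌊4 * l / ε⌋₊ - 1 := ⟨_, rfl⟩
  have h4l : 1 ≤ 4 * l / ε := by
    rw [le_div_iff₀ hε]
    linarith
  have hfl : 1 ≤ ⌊4 * l / ε⌋₊ := (Nat.one_le_floor_iff _).2 h4l
  have hfl1 : (⌊4 * l / ε⌋₊ : ℝ) ≤ 4 * l / ε := Nat.floor_le (by linarith)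
  have hfl2 : 4 * l / ε < ⌊4 * l / ε⌋₊ + 1 := Nat.lt_floor_add_one _
  have hjR : (j : ℝ) = ⌊4 * l / ε⌋₊ - 1 := by
    rw [hj, Nat.cast_sub hfl]
    push_cast
    ring
  have hjJ : j ≤ J := by
    have h1 : (⌊4 * l / ε⌋₊ : ℝ) ≤ 8 / ε := by
      refine hfl1.trans ?_
      exact div_le_div_of_nonneg_right (by linarith) hε.le
    have h2 : ⌊4 * l / ε⌋₊ ≤ J := by
      rw [hJ]
      have h3 : (⌊4 * l / ε⌋₊ : ℝ) ≤ (⌈8 / ε⌉₊ : ℝ) := h1.trans (Nat.le_ceil _)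
      exact_mod_cast h3
    omega
  have hga : (j : ℝ) * (ε / 4) + ε / 4 ≤ l := by
    have h1 : (⌊4 * l / ε⌋₊ : ℝ) * ε ≤ 4 * l := by rwa [le_div_iff₀ hε] at hfl1
    rw [hjR]
    linarith
  have hgb : l * (1 - ε) ≤ (j : ℝ) * (ε / 4) := by
    have h1 : 4 * l < (⌊4 * l / ε⌋₊ + 1) * ε := by rwa [div_lt_iff₀ hε] at hfl2
    rw [hjR]
    nlinarith
  have hmj : (m : ℝ) ^ (1 - ε) ≤ (n : ℝ) ^ ((j : ℝ) * (ε / 4)) := by
    rw [← hnl, ← Real.rpow_mul hn0.le]
    exact Real.rpow_le_rpow_of_exponent_le hn1.le hgb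
  obtain ⟨N, Q, hN, hQ, h1⟩ := h j n ((le_sup (f := n₀) (mem_range.2 (by omega))).trans hnmax) E (by
    calc (n : ℝ) ^ ((j : ℝ) * (ε / 4) + ε / 4) ≤ (n : ℝ) ^ l :=
          Real.rpow_le_rpow_of_exponent_le hn1.le hga
      _ = m := hnl
      _ ≤ E.card := by exact_mod_cast hE)
  refine ⟨N, Q, hN, hQ, fun s D hD hs hcnt => ?_⟩
  refine (h1 s D hD (hs.trans (Real.rpow_le_rpow_of_exponent_le (by norm_num) hmj)) ?_).trans ?_
  · intro e he L hL
    refine (hcnt e he L hL).trans ?_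
    have h2 : Real.logb 2 m ≤ 2 * Real.logb 2 n := by
      have h3 : (m : ℝ) ≤ (n : ℝ) ^ (2 : ℕ) := by exact_mod_cast hmn2
      calc Real.logb 2 m ≤ Real.logb 2 ((n : ℝ) ^ (2 : ℕ)) :=
            Real.logb_le_logb_of_le (by norm_num) hm0 h3
        _ = 2 * Real.logb 2 n := by
            rw [Real.logb_pow]
            push_cast
            ring
    have h3 : c j₁ ≤ c j := hj₁ j (mem_range.2 (by omega))
    have h4 : 0 ≤ Real.logb 2 n := Real.logb_nonneg (by norm_num) hn1.le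
    have h5 := hc j₁
    calc c j₁ / 2 * Real.logb 2 m ≤ c j₁ / 2 * (2 * Real.logb 2 n) :=
          mul_le_mul_of_nonneg_left h2 (by positivity)
      _ = c j₁ * Real.logb 2 n := by ring
      _ ≤ c j * Real.logb 2 n := mul_le_mul_of_nonneg_right h3 h4
  · refine mul_le_mul_of_nonneg_left ?_ (Nat.cast_nonneg _)
    exact Real.rpow_le_rpow_of_exponent_le (by norm_num) (neg_le_neg hmj)

open Classical in
/-- in each set of `m` variables some variable is read more than `c log m` times -/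
theorem one (ε : ℝ) (hε : 0 < ε) (hε1 : ε < 1) : ∃ c : ℝ, 0 < c ∧ ∃ m₀ : ℕ, ∀ m ≥ m₀,
    ∀ (n : ℕ) (E : Finset (EdgeVar n)), m ≤ E.card →
      ∃ (N : ℕ) (Q : Fin N → EdgeVar n → Bool), 0 < N ∧ (∀ i, ¬ Clq (Q i)) ∧
        ∀ (s : ℕ) (D : Circuit (EdgeVar n) s), (∀ x, Clq x → D.Accepts x) →
          (s : ℝ) ≤ (2 : ℝ) ^ ((m : ℝ) ^ (1 - ε)) →
          (∀ e ∈ E, ∀ L, Tree D D.out L → (L.count e : ℝ) ≤ c * Real.logb 2 m) →
          ((univ.filter fun i => ¬ D.Accepts (Q i)).card : ℝ) ≤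
            N * (2 : ℝ) ^ (-((m : ℝ) ^ (1 - ε))) := by
  obtain ⟨a, ha, m₁, hA⟩ := oneA ε hε hε1
  obtain ⟨b, hb, m₂, hB⟩ := oneB ε hε hε1
  refine ⟨min a b, lt_min ha hb, max (max m₁ m₂) 1, fun m hm n E hE => ?_⟩
  have hm1 : m₁ ≤ m := le_trans (le_trans (le_max_left _ _) (le_max_left _ _)) hm
  have hm2 : m₂ ≤ m := le_trans (le_trans (le_max_right _ _) (le_max_left _ _)) hm
  have hm3 : (1 : ℝ) ≤ m := by
    have : 1 ≤ m := le_trans (le_max_right _ _) hm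
    exact_mod_cast this
  have hl : 0 ≤ Real.logb 2 m := Real.logb_nonneg (by norm_num) hm3
  rcases Nat.lt_or_ge n (4 * m) with h | h
  · obtain ⟨N, Q, hN, hQ, h1⟩ := hB m hm2 n E hE h
    exact ⟨N, Q, hN, hQ, fun s D hD hs hcnt => h1 s D hD hs fun e he L hL =>
      (hcnt e he L hL).trans (mul_le_mul_of_nonneg_right (min_le_right _ _) hl)⟩
  · obtain ⟨N, Q, hN, hQ, h1⟩ := hA m hm1 n E hE h
    exact ⟨N, Q, hN, hQ, fun s D hD hs hcnt => h1 s D hD hs fun e he L hL =>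
      (hcnt e he L hL).trans (mul_le_mul_of_nonneg_right (min_le_left _ _) hl)⟩

end Pool.Agent.SF
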