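import Mathlib
import Pool.Agent.Lib.MP_0a1b52_lc_SF.One
import Pool.Agent.Lib.MP_0a1b52_lc_RT.Frontier

/-!
# Small sets of variables, module Parts: the parts of the theorem
-/

set_option autoImplicit false

namespace Pool.Agent.SF

open Finset Pool.Agent.FP Pool.Agent.RT

open Classical in
/-- in each set of `m` variables some variable is read more than `c log m` times -/
theorem partOne (ε : ℝ) (hε : 0 < ε) (hε1 : ε < 1) : ∃ c : ℝ, 0 < c ∧ ∃ m₀ : ℕ, ∀ m ≥ m₀,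
    ∀ (n : ℕ) (E : Finset (EdgeVar n)), m ≤ E.card →
      ∃ (N : ℕ) (Q : Fin N → EdgeVar n → Bool), 0 < N ∧ (∀ i, ¬ Clq (Q i)) ∧
        ∀ (s : ℕ) (D : Circuit (EdgeVar n) s), (∀ x, Clq x → D.Accepts x) →
          (s : ℝ) ≤ (2 : ℝ) ^ ((m : ℝ) ^ (1 - ε)) →
          (∀ e ∈ E, ∀ L, LTree D D.out L →
            ((L.map Prod.fst).count e : ℝ) ≤ c * Real.logb 2 m) →
          ((univ.filter fun i => ¬ D.Accepts (Q i)).card : ℝ) ≤
            N * (2 : ℝ) ^ (-((m : ℝ) ^ (1 - ε))) := by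
  obtain ⟨c, hc, m₀, h⟩ := one ε hε hε1
  refine ⟨c, hc, m₀, fun m hm n E hE => ?_⟩
  obtain ⟨N, Q, hN, hQ, h1⟩ := h m hm n E hE
  refine ⟨N, Q, hN, hQ, fun s D hD hs hcnt => h1 s D hD hs fun e he M hM => ?_⟩
  obtain ⟨L, hL, rfl⟩ := (tree_iff D D.out M).1 hM
  exact hcnt e he L hL

/-- a few variables can be read once -/
theorem partFree (n s : ℕ) (D : Circuit (EdgeVar n) s) (E : Finset (EdgeVar n)) (hE : E ≠ univ) :
    ∃ (s' : ℕ) (D' : Circuit (EdgeVar n) s'), s' ≤ 2 ^ E.card * (s + 2 * E.card + 5) ∧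
      (∀ x, D'.Accepts x ↔ D.Accepts x) ∧
      ∀ e ∈ E, ∀ L, LTree D' D'.out L → (L.map Prod.fst).count e ≤ 1 := by
  obtain ⟨w, hw⟩ : ∃ w, w ∉ E := by
    by_contra hc
    exact hE (eq_univ_iff_forall.2 fun w => by
      by_contra h
      exact hc ⟨w, h⟩)
  obtain ⟨s', D', h1, h2, h3⟩ := once D E w hw
  exact ⟨s', D', h1, h2, fun e he L hL => h3 e he _ ((tree_iff D' D'.out _).2 ⟨L, hL, rfl⟩)⟩

end Pool.Agent.SF
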