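import Mathlib
import Pool.Agent.Lib.MP_0a1b52_lc_LS.MainQ

/-!
# Small sets of variables, module Two: reading more than `c log² m` times
-/

set_option autoImplicit false

namespace Pool.Agent.SF

open Finset Pool.Agent.FP Pool.Agent.RK Pool.Agent.RT Pool.Agent.LS

private theorem sqrt_add (m : ℕ) : ∀ d, Nat.sqrt (m + d) ≤ Nat.sqrt m + d
  | 0 => le_refl _
  | d + 1 => by
    have h1 := sqrt_add m d
    have h2 : Nat.sqrt (m + (d + 1)) ≤ Nat.sqrt (m + d) + 1 := by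
      rw [← Nat.lt_succ_iff, Nat.sqrt_lt]
      have h4 : m + d < (Nat.sqrt (m + d) + 1) * (Nat.sqrt (m + d) + 1) := Nat.lt_succ_sqrt _
      nlinarith
    omega

open Classical in
/-- in each set of `m ≤ n` variables some variable is read more than `c log² m` times; both
sides, `ty = false` for the non-cliques, `ty = true` for the cliques -/
theorem two (ε : ℝ) (hε : 0 < ε) (hε2 : ε < 1 / 2) : ∃ c : ℝ, 0 < c ∧ ∃ m₀ : ℕ, ∀ m ≥ m₀,
    ∀ n ≥ m, ∀ E : Finset (EdgeVar n), m ≤ E.card → ∀ ty : Bool,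
      ∃ (N : ℕ) (Q : Fin N → EdgeVar n → Bool), 0 < N ∧ (∀ i, Clq (Q i) ↔ ty = true) ∧
        ∀ (s : ℕ) (D : Circuit (EdgeVar n) s), (∀ x, ¬ D.Accepts x → (Clq x ↔ ty = true)) →
          (s : ℝ) ≤ (2 : ℝ) ^ ((m : ℝ) ^ (1 / 2 - ε)) →
          (∀ e ∈ E, ∀ L, Tree D D.out L → (L.count e : ℝ) ≤ c * Real.logb 2 m ^ 2) →
          ((univ.filter fun i => ¬ D.Accepts (Q i)).card : ℝ) ≤
            N * (2 : ℝ) ^ (-((m : ℝ) ^ (1 / 2 - ε))) := by
  obtain ⟨c, hc, m₀, h₀⟩ := mainKQ (1 / 2 - ε) (2 * ε) (by linarith) (by linarith) (by linarith)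
  refine ⟨c, hc, m₀, fun m hm n hn E hE ty => ?_⟩
  obtain ⟨K, N₁, N₂, hK, hN, hN2, hM1, hM2, hEc, hmain⟩ := h₀ m hm
  have hs : Nat.sqrt m ≤ Nat.sqrt n := Nat.sqrt_le_sqrt hn
  have hs2 : Nat.sqrt n ≤ Nat.sqrt m + (n - m) := by
    have h1 := sqrt_add m (n - m)
    rwa [Nat.add_sub_cancel' hn] at h1
  have hEc2 : 8 * (K * N₁) ^ 2 ≤ m := by
    have h1 : (m : ℝ) ^ (2 * (1 / 2 - ε) + 2 * ε) = m := by
      rw [show 2 * (1 / 2 - ε) + 2 * ε = (1 : ℝ) by ring, Real.rpow_one]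
    rw [h1] at hEc
    exact_mod_cast hEc
  obtain ⟨e, he1, he2, hfam⟩ := famQ n K N₁ N₂ hK hN hN2 (by omega) (by omega) E
    (hEc2.trans hE)
  obtain ⟨Q, hQ1, hQ2⟩ := hfam ty
  obtain ⟨φ⟩ : Nonempty (TabQ K N₁ N₂ × WdQ K N₁ ≃
      Fin (Fintype.card (TabQ K N₁ N₂ × WdQ K N₁))) := ⟨Fintype.equivFin _⟩
  refine ⟨Fintype.card (TabQ K N₁ N₂ × WdQ K N₁), fun i => Q (φ.symm i), ?_, fun i => hQ1 _, ?_⟩
  · exact Fintype.card_pos_iff.2 ⟨(fun _ _ => ⟨0, hN2⟩, fun _ _ => false)⟩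
  intro s D hD hs hcnt
  have h1 := hmain (EdgeVar n) e he2 (TabQ K N₁ N₂ × WdQ K N₁) Q (fun x => Clq x ↔ ty = true)
    hQ2 s D hD hs (by
      intro k j t L hL
      refine le_trans (le_of_eq ?_) (hcnt _ (he1 k j t) L hL)
      rw [lawful_beq_subsingleton (instBEqOfDecidableEq : BEq (EdgeVar n)) Subtype.instBEq])
  refine le_trans (le_of_eq ?_) h1
  rw [Nat.card_eq_fintype_card, Fintype.card_subtype, Nat.cast_inj]
  refine card_bij (fun i _ => φ.symm i) ?_ ?_ ?_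
  · intro i hi
    exact mem_filter.2 ⟨mem_univ _, (mem_filter.1 hi).2⟩
  · intro i _ j _ h
    exact φ.symm.injective h
  · intro i hi
    refine ⟨φ i, mem_filter.2 ⟨mem_univ _, ?_⟩, φ.symm_apply_apply i⟩
    have h2 := (mem_filter.1 hi).2
    simpa only [φ.symm_apply_apply] using h2

end Pool.Agent.SF
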