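import Mathlib
import Pool.Agent.Lib.MP_0a1b52_lc_SF.Parts
import Pool.Agent.Lib.MP_0a1b52_lc_SF.Two
import Pool.Agent.Lib.MP_0a1b52_lc_RT.Dual

/-!
# Small sets of variables, module Final: reading more than `c log² m` times, both sides
-/

set_option autoImplicit false

namespace Pool.Agent.SF

open Finset Pool.Agent.FP Pool.Agent.RT

open Classical in
/-- in each set of `m` variables some variable is read more than `c log² m` times -/
theorem partTwo (ε : ℝ) (hε : 0 < ε) (hε1 : ε < 1 / 2) : ∃ c : ℝ, 0 < c ∧ ∃ m₀ : ℕ, ∀ m ≥ m₀,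
    ∀ n ≥ m, ∀ E : Finset (EdgeVar n), m ≤ E.card →
      (∃ (N : ℕ) (Q : Fin N → EdgeVar n → Bool), 0 < N ∧ (∀ i, ¬ Clq (Q i)) ∧
        ∀ (s : ℕ) (D : Circuit (EdgeVar n) s), (∀ x, Clq x → D.Accepts x) →
          (s : ℝ) ≤ (2 : ℝ) ^ ((m : ℝ) ^ (1 / 2 - ε)) →
          (∀ e ∈ E, ∀ L, LTree D D.out L →
            ((L.map Prod.fst).count e : ℝ) ≤ c * Real.logb 2 m ^ 2) →
          ((univ.filter fun i => ¬ D.Accepts (Q i)).card : ℝ) ≤
            N * (2 : ℝ) ^ (-((m : ℝ) ^ (1 / 2 - ε)))) ∧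
      ∃ (N : ℕ) (P : Fin N → EdgeVar n → Bool), 0 < N ∧ (∀ i, Clq (P i)) ∧
        ∀ (s : ℕ) (D : Circuit (EdgeVar n) s), (∀ x, ¬ Clq x → ¬ D.Accepts x) →
          (s : ℝ) ≤ (2 : ℝ) ^ ((m : ℝ) ^ (1 / 2 - ε)) →
          (∀ e ∈ E, ∀ L, ATree D D.out L → (L.count e : ℝ) ≤ c * Real.logb 2 m ^ 2) →
          ((univ.filter fun i => D.Accepts (P i)).card : ℝ) ≤
            N * (2 : ℝ) ^ (-((m : ℝ) ^ (1 / 2 - ε))) := by
  obtain ⟨c, hc, m₀, h⟩ := two ε hε hε1
  refine ⟨c, hc, m₀, fun m hm n hn E hE => ⟨?_, ?_⟩⟩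
  · obtain ⟨N, Q, hN, hQ, h1⟩ := h m hm n hn E hE false
    refine ⟨N, Q, hN, fun i hi => by simpa using (hQ i).1 hi, fun s D hD hs hcnt => ?_⟩
    refine h1 s D (fun x hx => ?_) hs fun e he M hM => ?_
    · constructor
      · intro h1
        exact (hx (hD x h1)).elim
      · intro h1
        exact Bool.noConfusion h1
    · obtain ⟨L, hL, rfl⟩ := (tree_iff D D.out M).1 hM
      exact hcnt e he L hL
  · obtain ⟨N, Q, hN, hQ, h1⟩ := h m hm n hn E hE true
    refine ⟨N, Q, hN, fun i => (hQ i).2 rfl, fun s D hD hs hcnt => ?_⟩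
    have h3 := h1 s (dual D) (fun x hx => by
        rw [dual_accepts, not_not] at hx
        refine ⟨fun _ => rfl, fun _ => ?_⟩
        by_contra hc
        exact hD x hc hx) hs (fun e he L hL => hcnt e he L (tree_dual hL))
    have h4 : (univ.filter fun i => ¬ (dual D).Accepts (Q i)) =
        univ.filter fun i => D.Accepts (Q i) := by
      ext i
      rw [mem_filter, mem_filter, dual_accepts, not_not]
    rw [h4] at h3
    exact h3

end Pool.Agent.SF
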