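import Mathlib
import Pool.Agent.Lib.MP_0a1b52_lc_SF.Exact2
import Pool.Agent.Lib.MP_0a1b52_lc_SF.Parts
import Pool.Agent.Lib.MP_0a1b52_lc_LS.MainU
import Pool.Agent.Lib.MP_0a1b52_lc_EX.FreeUp

/-!
# Reading given variables at most `r` times: the parts of the theorem
-/

set_option autoImplicit false

namespace Pool.Agent.SF

open Finset Pool.Agent.FP Pool.Agent.RT

open Classical in
/-- reading each of `m` variables at most `r` times, both sides -/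
theorem partR (r m n : ℕ) (hr : 1 ≤ r) (hm : (2 : ℝ) ^ (256 * Real.sqrt r) ≤ m) (hn : m ≤ n)
    (E : Finset (EdgeVar n)) (hE : m ≤ E.card) :
    (∃ (N : ℕ) (Q : Fin N → EdgeVar n → Bool), 0 < N ∧ (∀ i, ¬ Clq (Q i)) ∧
      ∀ (t : ℕ) (g : Fin t → (EdgeVar n → Bool) → Bool),
        (∀ w x y, (∀ f, f ∉ E → x f = y f) → g w x = g w y) →
      ∀ (s : ℕ) (D : Circuit (EdgeVar n ⊕ Fin t) s),
        (∀ x, Clq x → D.Accepts (Sum.elim x fun w => g w x)) →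
        (s : ℝ) ≤ (2 : ℝ) ^ (m / (2 : ℝ) ^ (256 * Real.sqrt r)) →
        (∀ e ∈ E, ∀ L, LTree D D.out L → (L.map Prod.fst).count (Sum.inl e) ≤ r) →
        ((univ.filter fun i => ¬ D.Accepts (Sum.elim (Q i) fun w => g w (Q i))).card : ℝ) ≤
          N * (2 : ℝ) ^ (-(m / (2 : ℝ) ^ (256 * Real.sqrt r)))) ∧
    ∃ (N : ℕ) (P : Fin N → EdgeVar n → Bool), 0 < N ∧ (∀ i, Clq (P i)) ∧
      ∀ (t : ℕ) (g : Fin t → (EdgeVar n → Bool) → Bool),
        (∀ w x y, (∀ f, f ∉ E → x f = y f) → g w x = g w y) →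
      ∀ (s : ℕ) (D : Circuit (EdgeVar n ⊕ Fin t) s),
        (∀ x, ¬ Clq x → ¬ D.Accepts (Sum.elim x fun w => g w x)) →
        (s : ℝ) ≤ (2 : ℝ) ^ Real.sqrt (m / (2 : ℝ) ^ (256 * Real.sqrt r)) →
        (∀ e ∈ E, ∀ L, ATree D D.out L → L.count (Sum.inl e) ≤ r) →
        ((univ.filter fun i => D.Accepts (Sum.elim (P i) fun w => g w (P i))).card : ℝ) ≤
          N * (2 : ℝ) ^ (-Real.sqrt (m / (2 : ℝ) ^ (256 * Real.sqrt r))) :=
  ⟨Pool.Agent.LS.mainUL r m n hr hm hn E hE, Pool.Agent.LS.mainUA r m n hr hm hn E hE⟩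

open Classical in
/-- with free functions of the other variables, `6 * 2 ^ k` gates suffice to read `k` variables
once, on either side -/
theorem partUp (n : ℕ) (E : Finset (EdgeVar n)) (f : (EdgeVar n → Bool) → Prop) :
    (∃ (g : Fin (2 ^ E.card) → (EdgeVar n → Bool) → Bool) (s : ℕ)
      (D : Circuit (EdgeVar n ⊕ Fin (2 ^ E.card)) s),
      (∀ w x y, (∀ e, e ∉ E → x e = y e) → g w x = g w y) ∧ s ≤ 6 * 2 ^ E.card ∧
      (∀ x, D.Accepts (Sum.elim x fun w => g w x) ↔ f x) ∧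
      ∀ e ∈ E, ∀ L, LTree D D.out L → (L.map Prod.fst).count (Sum.inl e) ≤ 1) ∧
    ∃ (g : Fin (2 ^ E.card) → (EdgeVar n → Bool) → Bool) (s : ℕ)
      (D : Circuit (EdgeVar n ⊕ Fin (2 ^ E.card)) s),
      (∀ w x y, (∀ e, e ∉ E → x e = y e) → g w x = g w y) ∧ s ≤ 6 * 2 ^ E.card ∧
      (∀ x, D.Accepts (Sum.elim x fun w => g w x) ↔ f x) ∧
      ∀ e ∈ E, ∀ L, ATree D D.out L → L.count (Sum.inl e) ≤ 1 := by
  refine ⟨?_, Pool.Agent.EX.freeUpA E f⟩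
  obtain ⟨g, s, D, h1, h2, h3, h4⟩ := Pool.Agent.EX.freeUp E f
  exact ⟨g, s, D, h1, h2, h3, fun e he L hL => h4 e he _ ((tree_iff D D.out _).2 ⟨L, hL, rfl⟩)⟩

end Pool.Agent.SF
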